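import Pool.Agent.Helper65.FP.Rooted
import Pool.Agent.Helper65.TH.Families

/-!
Towers of rooted subgroups with (ordinary) asymptotic property C.

`Cut K T n` (`T` a sequence of finite sets): the group is covered by `n` classes such that the chains in
the class `i` with steps in `T i ∩ K` are bounded.

`cut_rooted`: if `K` is rooted in `K'` and `T 0 ⊆ K` then `Cut K T n` implies `Cut K' T n` (the same `n`):
the class `0` is enlarged by the points near the roots of the cosets of `K`; a step `t ∈ T i ∩ K'` between two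
points which are not near the roots of their cosets lies in `K`.

`apc_tower`: if `G` is the union of `H 0 ≤ H 1 ≤ ...`, every `H n` has asymptotic property C and is
rooted in `H (n + 1)`, then `G` has asymptotic property C.
-/

set_option autoImplicit false

namespace Pool.Agent.Helper37.Q2

open Pool.Agent.Helper65.TH Pool.Agent.Helper65.GN Pool.Agent.Helper65.FP
open Pool.Agent.Helper75.Apc (HasFamilies)

/-- asymptotic property C -/
def APC (X : Type*) [MetricSpace X] : Prop :=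
  ∀ R : ℕ → ℝ, (∀ i, 0 < R i) → Monotone R → ∃ n, HasFamilies X R n

/-- the group is covered by `n` classes (the level sets of `w`), such that the chains in the class
`i` with steps in `T i ∩ K` are bounded -/
def Cut {G : Type*} [Group G] (K : Subgroup G) (T : ℕ → Finset G) (n : ℕ) : Prop :=
  ∃ (w : G → ℕ) (E : Finset G), (∀ x, w x < n) ∧
    ∀ i < n, Bdd {t | t ∈ T i ∧ t ∈ K} {x | w x = i} E

theorem cut_rooted {G : Type*} [Group G] (K K' : Subgroup G) (hKK' : K ≤ K')
    (hr : Rooted K K') (T : ℕ → Finset G) (hT : ∀ t ∈ T 0, t ∈ K) {n : ℕ} (h : Cut K T n) :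
    Cut K' T n := by
  classical
  obtain ⟨w₀, E₀, hw0, hb⟩ := h
  have hn : 0 < n := lt_of_le_of_lt (Nat.zero_le _) (hw0 1)
  set S : Finset G := (Finset.range n).biUnion fun i => (T i).filter (· ∈ K') with hSdef
  have hS : ∀ s ∈ S, s ∈ K' := by
    intro s hs
    obtain ⟨i, _, hs⟩ := Finset.mem_biUnion.1 hs
    exact (Finset.mem_filter.1 hs).2
  obtain ⟨B, ρ, hB, hρ1, hρ2, hρ3⟩ := hr S hS
  set r : G → G := fun x => Quotient.out (QuotientGroup.mk x : G ⧸ K') with hrdef
  have hr1 : ∀ x, (r x)⁻¹ * x ∈ K' := fun x =>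
    QuotientGroup.eq.1 (QuotientGroup.out_eq' (QuotientGroup.mk x : G ⧸ K'))
  have hr2 : ∀ x k, k ∈ K' → r (x * k) = r x := by
    intro x k hk
    have : (QuotientGroup.mk (x * k) : G ⧸ K') = QuotientGroup.mk x := by
      rw [QuotientGroup.eq]
      have : (x * k)⁻¹ * x = k⁻¹ := by group
      rw [this]
      exact K'.inv_mem hk
    rw [hrdef]
    simp only [this]
  set ρ' : G → G := fun x => r x * ρ ((r x)⁻¹ * x) with hρ'
  have h1 : ∀ x k, k ∈ K → ρ' (x * k) = ρ' x := by
    intro x k hk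
    show r (x * k) * ρ ((r (x * k))⁻¹ * (x * k)) = r x * ρ ((r x)⁻¹ * x)
    rw [hr2 x k (hKK' hk), ← mul_assoc, hρ2 _ (hr1 x) k hk]
  have h2 : ∀ x k, k ∈ K' → (ρ' (x * k))⁻¹ * (x * k) =
      (ρ ((r x)⁻¹ * x * k))⁻¹ * ((r x)⁻¹ * x * k) := by
    intro x k hk
    show (r (x * k) * ρ ((r (x * k))⁻¹ * (x * k)))⁻¹ * (x * k) = _
    rw [hr2 x k hk]
    simp only [mul_inv_rev, mul_assoc]
  have h2' : ∀ x, (ρ' x)⁻¹ * x = (ρ ((r x)⁻¹ * x))⁻¹ * ((r x)⁻¹ * x) := by
    intro x
    have := h2 x 1 K'.one_mem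
    simpa only [mul_one] using this
  have h3 : ∀ x, ∀ s ∈ S, s ∉ K → (ρ' x)⁻¹ * x ∈ B ∨ (ρ' (x * s))⁻¹ * (x * s) ∈ B := by
    intro x s hs hsK
    rw [h2' x, h2 x s (hS s hs)]
    exact hρ3 _ (hr1 x) s hs hsK
  set X₁ : Set G := {x | (ρ' x)⁻¹ * x ∈ B} with hX₁
  set w : G → ℕ := fun x => if x ∈ X₁ then 0 else w₀ x with hw
  set E₁ : Finset G := Finset.image₂ (fun b b' => b⁻¹ * b') B B with hE₁
  have hX1 : ∀ F₁ : Finset G, (∀ f ∈ F₁, f ∈ K) → Bdd (F₁ : Set G) X₁ E₁ := by
    intro F₁ hF₁ x hx y hxy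
    have hy : y ∈ X₁ := hxy.last hx
    have hk : x⁻¹ * y ∈ K := hxy.mem_subgroup K (fun s hs => hF₁ s (Finset.mem_coe.1 hs))
    have h4 : ρ' y = ρ' x := by
      have := h1 x _ hk
      rwa [mul_inv_cancel_left] at this
    refine Finset.mem_image₂.2 ⟨(ρ' x)⁻¹ * x, hx, (ρ' y)⁻¹ * y, hy, ?_⟩
    rw [h4]
    group
  set F₁ : Finset G := T 0 ∪ Finset.image₂ (fun a b => a * b)
    (Finset.image₂ (fun a b => a * b) (T 0) (E₀.filter (· ∈ K))) (T 0) with hF₁def
  have hF₁ : ∀ f ∈ F₁, f ∈ K := by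
    intro f hf
    rw [hF₁def, Finset.mem_union, Finset.mem_image₂] at hf
    rcases hf with hf | ⟨a, ha, b, hb, rfl⟩
    · exact hT f hf
    · obtain ⟨t, ht, e, he, rfl⟩ := Finset.mem_image₂.1 ha
      exact K.mul_mem (K.mul_mem (hT t ht) (Finset.mem_filter.1 he).2) (hT b hb)
  have hb0 : Bdd (T 0 : Set G) {x | w₀ x = 0} E₀ := by
    intro x hx y hxy
    refine hb 0 hn x hx y (hxy.mono ?_ (fun _ h => h))
    intro t ht
    exact ⟨Finset.mem_coe.1 ht, hT t (Finset.mem_coe.1 ht)⟩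
  have hbu := bdd_union K (T 0) hT {x | w₀ x = 0} X₁ E₀ F₁ E₁ hb0 (hX1 F₁ hF₁)
    Finset.subset_union_left (by
      intro f hf e he heK f' hf'
      refine Finset.mem_union_right _ (Finset.mem_image₂.2 ⟨f * e, Finset.mem_image₂.2
        ⟨f, hf, e, Finset.mem_filter.2 ⟨he, heK⟩, rfl⟩, f', hf', rfl⟩))
  refine ⟨w, E₀ ∪ suE (T 0) E₀ E₁, ?_, ?_⟩
  · intro x
    show (if x ∈ X₁ then 0 else w₀ x) < n
    split_ifs
    · exact hn
    · exact hw0 x
  · intro i hi
    rcases Nat.eq_zero_or_pos i with rfl | hi0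
    · intro x hx y hxy
      have hsub : ∀ z, w z = 0 → z ∈ {x | w₀ x = 0} ∪ X₁ := by
        intro z hz
        by_cases hx1 : z ∈ X₁
        · exact Or.inr hx1
        · left
          have h4 : (if z ∈ X₁ then 0 else w₀ z) = 0 := hz
          rwa [if_neg hx1] at h4
      refine Finset.mem_union_right _ (hbu x (hsub x hx) y (hxy.mono ?_ ?_))
      · intro t ht
        exact Finset.mem_coe.2 ht.1
      · intro z hz
        exact hsub z hz
    · intro x hx y hxy
      have hnX : ∀ z, w z = i → z ∉ X₁ ∧ w₀ z = i := by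
        intro z hz
        have h4 : (if z ∈ X₁ then 0 else w₀ z) = i := hz
        by_cases hz1 : z ∈ X₁
        · rw [if_pos hz1] at h4
          omega
        · rw [if_neg hz1] at h4
          exact ⟨hz1, h4⟩
      have key : w y = i ∧ Chain {t | t ∈ T i ∧ t ∈ K} (fun b => b ∈ {x | w₀ x = i}) x y := by
        refine hxy.rec' (R := fun z => w z = i ∧ Chain {t | t ∈ T i ∧ t ∈ K}
          (fun b => b ∈ {x | w₀ x = i}) x z) ⟨hx, Chain.refl _ _ _⟩ ?_
        intro a b _ hab hs hb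
        refine ⟨hb, hab.2.step ?_ (hnX b hb).2⟩
        refine ⟨hs.1, ?_⟩
        by_contra hK
        have hmem : a⁻¹ * b ∈ S := Finset.mem_biUnion.2
          ⟨i, Finset.mem_range.2 hi, Finset.mem_filter.2 ⟨hs.1, hs.2⟩⟩
        rcases h3 a (a⁻¹ * b) hmem hK with h4 | h4
        · exact (hnX a hab.1).1 h4
        · rw [mul_inv_cancel_left] at h4
          exact (hnX b hb).1 h4
      exact Finset.mem_union_left _ (hb i hi x (hnX x hx).2 y key.2)

/-- from the metric form to chains -/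
theorem cut_of_apc {G : Type*} [Group G] [MetricSpace G]
    (hinv : ∀ a b c : G, dist (a * b) (a * c) = dist b c)
    (hprop : ∀ r : ℝ, (Metric.closedBall (1 : G) r).Finite) (K : Subgroup G)
    (h : APC K) (T : ℕ → Finset G) : ∃ n, Cut K T n := by
  classical
  have hd : ∀ a b : G, dist a b = dist 1 (a⁻¹ * b) := by
    intro a b
    have := hinv a 1 (a⁻¹ * b)
    rw [mul_one, mul_inv_cancel_left] at this
    exact this
  have hnn : ∀ S : Finset G, 0 ≤ ∑ s ∈ S, dist 1 s := fun S =>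
    Finset.sum_nonneg fun _ _ => dist_nonneg
  have hle : ∀ S : Finset G, ∀ s ∈ S, dist 1 s ≤ ∑ s ∈ S, dist 1 s := fun S s hs =>
    Finset.single_le_sum (f := fun s => dist (1 : G) s) (fun _ _ => dist_nonneg) hs
  set R : ℕ → ℝ := fun i => 1 + ∑ j ∈ Finset.range (i + 1), ∑ s ∈ T j, dist 1 s with hR
  have hpos : ∀ i, 0 < R i := by
    intro i
    have : 0 ≤ ∑ j ∈ Finset.range (i + 1), ∑ s ∈ T j, dist 1 s :=
      Finset.sum_nonneg fun j _ => hnn _
    rw [hR]
    dsimp only
    linarith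
  have hmono : Monotone R := by
    refine monotone_nat_of_le_succ fun i => ?_
    rw [hR]
    dsimp only
    rw [Finset.sum_range_succ _ (i + 1)]
    linarith [hnn (T (i + 1))]
  obtain ⟨n, U, hD, hdisj, hcov⟩ := h R hpos hmono
  choose D hD using hD
  have hp : ∀ x : G, (QuotientGroup.mk x : G ⧸ K).out⁻¹ * x ∈ K := by
    intro x
    rw [← QuotientGroup.eq]
    exact QuotientGroup.out_eq' _
  let part : G → K := fun x => ⟨(QuotientGroup.mk x : G ⧸ K).out⁻¹ * x, hp x⟩
  have hpart : ∀ x y : G, x⁻¹ * y ∈ K → dist (part x) (part y) = dist 1 (x⁻¹ * y) := by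
    intro x y hxy
    have h2 : (QuotientGroup.mk x : G ⧸ K) = QuotientGroup.mk y := QuotientGroup.eq.2 hxy
    show dist ((QuotientGroup.mk x : G ⧸ K).out⁻¹ * x) ((QuotientGroup.mk y : G ⧸ K).out⁻¹ * y) = _
    rw [h2, hinv, hd]
  choose idx B hB hxB using fun x => hcov (part x)
  set E : Finset G := (hprop (∑ i, |D i|)).toFinset with hE
  refine ⟨n, fun x => idx x, E, fun x => (idx x).2, fun i _ x hx y hxy => ?_⟩
  have hxy' : x⁻¹ * y ∈ K ∧ part y ∈ B x := by
    refine hxy.rec' (R := fun z => x⁻¹ * z ∈ K ∧ part z ∈ B x)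
      ⟨by rw [inv_mul_cancel]; exact K.one_mem, hxB x⟩ ?_
    rintro a b _ ⟨ha1, ha2⟩ hs hb
    refine ⟨?_, ?_⟩
    · have e1 : x⁻¹ * b = (x⁻¹ * a) * (a⁻¹ * b) := by group
      rw [e1]
      exact K.mul_mem ha1 hs.2
    · have hib : idx b = idx x := Fin.ext ((show (idx b : ℕ) = i from hb).trans
        (show (idx x : ℕ) = i from hx).symm)
      by_cases hBB : B x = B b
      · rw [hBB]
        exact hxB b
      · exfalso
        have hBb : B b ∈ U (idx x) := by rw [← hib]; exact hB b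
        obtain ⟨δ, hδ, hδ'⟩ := hdisj (idx x) (B x) (hB x) (B b) hBb hBB
        have h3 := hδ' _ ha2 _ (hxB b)
        rw [hpart a b hs.2] at h3
        have h4 : dist 1 (a⁻¹ * b) ≤ R i := by
          have h6 := hle (T i) _ hs.1
          have h7 : ∑ s ∈ T i, dist 1 s ≤ ∑ j ∈ Finset.range (i + 1), ∑ s ∈ T j, dist 1 s :=
            Finset.single_le_sum (f := fun j => ∑ s ∈ T j, dist (1 : G) s) (fun j _ => hnn _)
              (Finset.self_mem_range_succ i)
          rw [hR]
          dsimp only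
          linarith
        have h5 : R (idx x) = R i := by rw [show (idx x : ℕ) = i from hx]
        rw [h5] at hδ
        linarith
  rw [hE, Set.Finite.mem_toFinset, Metric.mem_closedBall, dist_comm, ← hpart x y hxy'.1]
  have h3 := hD (idx x) (B x) (hB x) _ (hxB x) _ hxy'.2
  have h4 : |D (idx x)| ≤ ∑ i, |D i| :=
    Finset.single_le_sum (f := fun i => |D i|) (fun _ _ => abs_nonneg _) (Finset.mem_univ _)
  exact (h3.trans (le_abs_self _)).trans h4

/-- from chains to the metric form -/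
theorem apc_of_cut {G : Type*} [Group G] [MetricSpace G]
    (hinv : ∀ a b c : G, dist (a * b) (a * c) = dist b c)
    (hprop : ∀ r : ℝ, (Metric.closedBall (1 : G) r).Finite)
    (h : ∀ T : ℕ → Finset G, ∃ n, Cut (⊤ : Subgroup G) T n) : APC G := by
  classical
  intro R hpos hmono
  have hd : ∀ a b : G, dist a b = dist 1 (a⁻¹ * b) := by
    intro a b
    have := hinv a 1 (a⁻¹ * b)
    rw [mul_one, mul_inv_cancel_left] at this
    exact this
  set T : ℕ → Finset G := fun i => (hprop (R i + 1)).toFinset with hT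
  have hmem : ∀ i s, s ∈ T i ↔ dist 1 s ≤ R i + 1 := by
    intro i s
    rw [hT, Set.Finite.mem_toFinset, Metric.mem_closedBall, dist_comm]
  have hsymm : ∀ i, ∀ s ∈ (T i : Set G), s⁻¹ ∈ (T i : Set G) := by
    intro i s hs
    rw [Finset.mem_coe, hmem] at hs ⊢
    have := hinv s 1 s⁻¹
    rw [mul_one, mul_inv_cancel] at this
    rw [← this, dist_comm]
    exact hs
  obtain ⟨n, w, E, hw, hb⟩ := h T
  have hb' : ∀ i < n, Bdd (T i : Set G) {x | w x = i} E := by
    intro i hi x hx y hxy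
    refine hb i hi x hx y (hxy.mono ?_ (fun _ h => h))
    intro t ht
    exact ⟨Finset.mem_coe.1 ht, Subgroup.mem_top _⟩
  refine ⟨n, fun i => {A | ∃ z, w z = i ∧ A = famComp (T i : Set G) {x | w x = i} z}, ?_, ?_, ?_⟩
  · intro i
    refine ⟨∑ e ∈ E, dist 1 e, ?_⟩
    rintro A ⟨z, hz, rfl⟩ x hx y hy
    have hx' : x ∈ {x | w x = (i : ℕ)} := famComp_subset (show z ∈ {x | w x = (i : ℕ)} from hz) hx
    have hc := famComp_symm (hsymm i) (show z ∈ {x | w x = (i : ℕ)} from hz) hx hy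
    rw [hd]
    exact Finset.single_le_sum (f := fun e => dist (1 : G) e) (fun _ _ => dist_nonneg)
      (hb' i i.2 x hx' y hc)
  · rintro i A ⟨z, hz, rfl⟩ B ⟨z', hz', rfl⟩ hAB
    refine ⟨R i + 1, by linarith, fun x hx y hy => ?_⟩
    by_contra hlt
    push Not at hlt
    apply hAB
    refine famComp_eq (hsymm i) (show z ∈ {x | w x = (i : ℕ)} from hz)
      (show z' ∈ {x | w x = (i : ℕ)} from hz') hx hy ?_
    rw [Finset.mem_coe, hmem, ← hd]
    exact hlt.le
  · intro x
    exact ⟨⟨w x, hw x⟩, _, ⟨x, rfl, rfl⟩, Chain.refl _ _ _⟩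

/-- If `G` is the union of subgroups `H 0 ≤ H 1 ≤ ...` with asymptotic property C and every `H n` is
rooted in `H (n + 1)` then `G` has asymptotic property C. -/
theorem apc_tower {G : Type*} [Group G] [MetricSpace G]
    (hinv : ∀ a b c : G, dist (a * b) (a * c) = dist b c)
    (hprop : ∀ r : ℝ, (Metric.closedBall (1 : G) r).Finite)
    (H : ℕ → Subgroup G) (hle : ∀ n, H n ≤ H (n + 1)) (hun : ∀ g : G, ∃ n, g ∈ H n)
    (hr : ∀ n, Rooted (H n) (H (n + 1))) (h : ∀ n, APC (H n)) : APC G := by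
  classical
  have hmono : Monotone H := monotone_nat_of_le_succ hle
  have hfin : ∀ S : Finset G, ∃ k, ∀ s ∈ S, s ∈ H k := by
    intro S
    induction S using Finset.induction_on with
    | empty => exact ⟨0, fun s hs => absurd hs (Finset.notMem_empty s)⟩
    | insert a S _ ih =>
      obtain ⟨k, hk⟩ := ih
      obtain ⟨m, hm⟩ := hun a
      refine ⟨max k m, fun s hs => ?_⟩
      rcases Finset.mem_insert.1 hs with rfl | hs
      · exact hmono (le_max_right _ _) hm
      · exact hmono (le_max_left _ _) (hk s hs)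
  refine apc_of_cut hinv hprop fun T => ?_
  obtain ⟨k, hk⟩ := hfin (T 0)
  obtain ⟨n, hn⟩ := cut_of_apc hinv hprop (H k) (h k) T
  have hstep : ∀ m, k ≤ m → Cut (H m) T n := by
    intro m hm
    induction m, hm using Nat.le_induction with
    | base => exact hn
    | succ m hm ih =>
      exact cut_rooted (H m) (H (m + 1)) (hle m) (hr m) T (fun t ht => hmono hm (hk t ht)) ih
  obtain ⟨m, hm⟩ := hfin ((Finset.range n).biUnion T)
  obtain ⟨w, E, hw, hb⟩ := hstep (max k m) (le_max_left _ _)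
  refine ⟨n, w, E, hw, fun i hi x hx y hxy => hb i hi x hx y (hxy.mono ?_ (fun _ h => h))⟩
  intro t ht
  exact ⟨ht.1, hmono (le_max_right _ _) (hm t (Finset.mem_biUnion.2
    ⟨i, Finset.mem_range.2 hi, ht.1⟩))⟩

end Pool.Agent.Helper37.Q2
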